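import Pool.Agent.Lib.MP_4a77c6_an.H1

open MeasureTheory MP4a77c6

namespace Pool.Agent.Results.MP_4a77c6_an.NeverExpMixing

/-- The geodesic flow of two compact hyperbolic manifolds glued along a geodesic segment never has
exponential decay of correlations for the Bowen-Margulis measure. -/
theorem result {n₁ n₂ : ℕ} (hn₁ : 1 ≤ n₁) (hn₂ : 1 ≤ n₂)
    {M₁ M₂ X Y : Type*} [MetricSpace M₁] [MetricSpace M₂] [MetricSpace X] [MetricSpace Y]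
    (hM₁ : IsHyperbolicManifold n₁ M₁) (hM₂ : IsHyperbolicManifold n₂ M₂)
    {L : ℝ} (hL : 0 < L) {σ₁ : ℝ → M₁} {σ₂ : ℝ → M₂}
    (hσ₁ : IsGeodesicOn σ₁ 0 L) (hσ₂ : IsGeodesicOn σ₂ 0 L)
    {j₁ : M₁ → X} {j₂ : M₂ → X} (hX : IsGluing L σ₁ σ₂ j₁ j₂)
    {π : Y → X} (hπ : IsUniversalCover π)
    {h : ℝ} {μ : Y → Measure (Bd Y)} (hμ : IsConformalDensity π h μ)
    {x₀ : Y} {m : Measure (GeodSpace X)} (hm : IsBowenMargulis π h μ x₀ m) :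
    ¬ HasExpDecay m :=
  main hn₁ hn₂ hM₁ hM₂ hL hσ₁ hσ₂ hX hπ hμ hm

end Pool.Agent.Results.MP_4a77c6_an.NeverExpMixing
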